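import Pool.Agent.W_3b51b4_h27.MainOCA
import Pool.Agent.W_3b51b4_h27.OcaReals
import Pool.Agent.W_3b51b4_h32.Final

/-!
# Consistency of: every perfectly normal compactum `X` with `p(C_p(X)) = ω` is metrizable

(1) Martin's axiom for `ℵ₁` dense sets and the open colouring axiom imply that every perfectly
normal compactum `X` with `p(C_p(X)) = ω` is metrizable.
(2) There is a countable well-founded model of ZFC in which the same two axioms hold.
-/

namespace Pool.Agent.Results.MP_3b51b4_gt.ConsistentPositive

open Cardinal
open Pool.Agent.W_MP_3b51b4_gt Pool.Agent.W_3b51b4_h27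

universe u

/-- The two axioms imply the positive statement, and they hold in a countable well-founded model of
ZFC. -/
theorem result :
    (MA ℵ₁ → OCAReals → ∀ (X : Type u) [TopologicalSpace X] [T35Space X],
      PointFiniteCellularityCountable (Cp X) → ∀ Y : Set X, IsCompact Y → PerfectlyNormalSpace Y →
        TopologicalSpace.MetrizableSpace Y) ∧
    ∃ (M : Type 1) (E : M → M → Prop), Countable M ∧ WellFounded E ∧ HESR.IsZFC E ∧
      MAO.MA1 E ∧ MAO.OCA E :=
  ⟨fun hMA hOCA X _ _ hp Y hY _ =>
    main_oca hMA (oca_of_reals hOCA) X hp Y hY, MOF.exists_model⟩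

end Pool.Agent.Results.MP_3b51b4_gt.ConsistentPositive
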