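import Pool.Agent.W_MP_3b51b4_gt.Forcing

/-!
# Perfectly normal compacta in spaces `X` with `p(C_p(X)) = ω`, under Martin's axiom

If Martin's axiom holds for `κ` dense sets and `X` is a Tychonoff space with `p(C_p(X)) = ω`, then
every perfectly normal compact subspace of `X` of weight at most `κ` is metrizable. In particular
(`Y = X`), under Martin's axiom every perfectly normal compactum `X` with `p(C_p(X)) = ω` of weight
less than the continuum is metrizable.
-/

namespace Pool.Agent.Results.MP_3b51b4_gt.MartinAxiomSmallWeight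

open Set Topology Filter Cardinal
open Pool.Agent.W_MP_3b51b4_gt

universe u

/-- Under Martin's axiom for `κ` dense sets, every perfectly normal compact subspace `Y` of weight
at most `κ` of a Tychonoff space `X` with `p(C_p(X)) = ω` is metrizable. -/
theorem result (κ : Cardinal.{0}) (hMA : MA κ) (X : Type u) [TopologicalSpace X] [T35Space X]
    (hp : PointFiniteCellularityCountable (Cp X)) (Y : Set X) (hY : IsCompact Y)
    [PerfectlyNormalSpace Y] (hw : WeightLE Y κ) : TopologicalSpace.MetrizableSpace Y := by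
  classical
  have : CompactSpace Y := isCompact_iff_compactSpace.1 hY
  by_contra hZ
  obtain ⟨ι, B, hι, hB⟩ := hw
  have hBo : ∀ i, IsOpen (B i) := fun i => hB.isOpen ⟨i, rfl⟩
  rcases le_or_gt κ ℵ₀ with hκ | hκ
  · -- countable weight
    apply hZ
    have hιc : Countable ι := Cardinal.mk_le_aleph0_iff.1 (hι.trans hκ)
    have : SecondCountableTopology Y := hB.secondCountableTopology (countable_range B)
    exact TopologicalSpace.metrizableSpace_of_t3_secondCountable Y
  have hκ1 : ℵ₁ ≤ κ := by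
    rw [← Cardinal.succ_aleph0]
    exact Order.succ_le_of_lt hκ
  -- the index set of size `ℵ₁`
  let Ω : Type := (ℵ₁ : Cardinal.{0}).ord.ToType
  have hΩcard : #Ω = ℵ₁ := Cardinal.mk_ord_toType _
  have hΩ : ∀ a : Ω, (Iio a).Countable := fun a => by
    rw [← Cardinal.le_aleph0_iff_set_countable, ← Order.lt_succ_iff, Cardinal.succ_aleph0]
    have h := Cardinal.mk_Iio_lt a (by rw [hΩcard]; exact (Ordinal.type_toType _).symm)
    exact h.trans_eq hΩcard
  have hΩ1 : ¬ Countable Ω := by
    rw [← Cardinal.mk_le_aleph0_iff, hΩcard, not_le]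
    exact Cardinal.aleph0_lt_aleph_one
  have hΩne : Nonempty Ω := by
    by_contra hne
    rw [not_nonempty_iff] at hne
    exact hΩ1 inferInstance
  obtain ⟨x, y, hne, hxy⟩ := exists_pairs_aux hZ Ω hΩ
  -- the promises
  let E : Finset ι → Set Ω := fun j =>
    {a | (⋃ i ∈ j, B i) = Set.univ ∧ ∀ i ∈ j, ¬ (x a ∈ B i ∧ y a ∈ B i)}
  have hE : ∀ j, ∃ V : Y → Set Y, (∀ z, V z ∈ 𝓝 z) ∧
      ∀ a ∈ E j, ∀ z, ¬ (x a ∈ V z ∧ y a ∈ V z) := by
    intro j
    by_cases hj : (⋃ i ∈ j, B i) = Set.univ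
    · have h1 : ∀ z : Y, ∃ i ∈ j, z ∈ B i := fun z => by
        have : z ∈ ⋃ i ∈ j, B i := hj ▸ mem_univ z
        obtain ⟨i, hi, hz⟩ := mem_iUnion₂.1 this
        exact ⟨i, hi, hz⟩
      choose i hij hzi using h1
      exact ⟨fun z => B (i z), fun z => (hBo _).mem_nhds (hzi z), fun a ha z => ha.2 _ (hij z)⟩
    · exact ⟨fun _ => Set.univ, fun _ => univ_mem, fun a ha => absurd ha.1 hj⟩
  have hEc : ∀ j, (E j).Countable := fun j => by
    obtain ⟨V, hV, hVE⟩ := hE j
    exact (hxy V hV).mono hVE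
  have hJ : #(Finset ι) ≤ κ := by
    by_cases hfin : Finite ι
    · have : Finite (Finset ι) := inferInstance
      exact (Cardinal.mk_le_aleph0 (α := Finset ι)).trans hκ.le
    · have : Infinite ι := not_finite_iff_infinite.1 hfin
      rw [Cardinal.mk_finset_of_infinite]
      exact hι
  obtain ⟨Ω', hΩ', hfin⟩ := exists_generic hκ.le hMA hΩ1 hΩ (hΩcard.le.trans hκ1) hJ E hEc
    (fun A hA m G hG hpc => exists_seq x y hxy E hE A hA m G hG hpc)
  -- the family of open sets
  let O : Ω → Set (Cp X) := fun a => {f | f.1 (x a) < 0 ∧ 1 < f.1 (y a)}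
  have hOo : ∀ a, IsOpen (O a) := by
    intro a
    have h1 : Continuous fun f : Cp X => f.1 (x a) :=
      (continuous_apply (x a : X)).comp continuous_subtype_val
    have h2 : Continuous fun f : Cp X => f.1 (y a) :=
      (continuous_apply (y a : X)).comp continuous_subtype_val
    exact (isOpen_lt h1 continuous_const).inter (isOpen_lt continuous_const h2)
  have hOn : ∀ a, (O a).Nonempty := by
    intro a
    have hne' : (x a : X) ∉ ({(y a : X)} : Set X) := fun h => hne a (Subtype.ext h)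
    obtain ⟨g, hg, hg0, hg1⟩ := CompletelyRegularSpace.completely_regular (x a : X)
      ({(y a : X)} : Set X) isClosed_singleton hne'
    refine ⟨⟨fun p => 3 * (g p : ℝ) - 1,
      (continuous_const.mul (continuous_subtype_val.comp hg)).sub continuous_const⟩, ?_, ?_⟩
    · simp [hg0]
    · have : g (y a) = 1 := hg1 (mem_singleton _)
      simp only [this]
      norm_num
  have hOfin : ∀ f : Cp X, {a ∈ Ω' | f ∈ O a}.Finite := by
    intro f
    have hf : Continuous fun z : Y => f.1 z := f.2.comp continuous_subtype_val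
    have h1 : ∀ z : Y, ∃ i, z ∈ B i ∧ ∀ v ∈ B i, |f.1 v - f.1 z| < 1 / 2 := by
      intro z
      have hopen : IsOpen {v : Y | |f.1 v - f.1 z| < 1 / 2} :=
        isOpen_lt (hf.sub continuous_const).abs continuous_const
      have hz : z ∈ {v : Y | |f.1 v - f.1 z| < 1 / 2} := by simp
      obtain ⟨_, ⟨i, rfl⟩, hzi, hi⟩ := hB.exists_subset_of_mem_open hz hopen
      exact ⟨i, hzi, fun v hv => hi hv⟩
    choose i hzi hi using h1
    obtain ⟨t, -, ht⟩ := isCompact_univ.elim_nhds_subcover (fun z : Y => B (i z))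
      (fun z _ => (hBo _).mem_nhds (hzi z))
    refine (hfin (t.image i)).subset ?_
    rintro a ⟨haΩ, ha1, ha2⟩
    refine ⟨haΩ, ?_, ?_⟩
    · rw [eq_univ_iff_forall]
      intro v
      obtain ⟨z, hz, hv⟩ := mem_iUnion₂.1 (ht (mem_univ v))
      exact mem_iUnion₂.2 ⟨i z, Finset.mem_image_of_mem i hz, hv⟩
    · intro k hk
      obtain ⟨z, hz, rfl⟩ := Finset.mem_image.1 hk
      rintro ⟨hx, hy⟩
      have h3 := abs_lt.1 (hi z _ hx)
      have h4 := abs_lt.1 (hi z _ hy)
      linarith [h3.1, h3.2, h4.1, h4.2]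
  have hcount : (O '' Ω').Countable := by
    refine hp (O '' Ω') ?_ ?_
    · rintro _ ⟨a, -, rfl⟩
      exact ⟨hOo a, hOn a⟩
    · intro f
      refine ((hOfin f).image O).subset ?_
      rintro _ ⟨⟨a, ha, rfl⟩, hf⟩
      exact ⟨a, ⟨ha, hf⟩, rfl⟩
  apply hΩ'
  refine (hcount.biUnion (t := fun U _ => {a ∈ Ω' | O a = U}) ?_).mono ?_
  · rintro _ ⟨b, hb, rfl⟩
    obtain ⟨f, hf⟩ := hOn b
    refine ((hOfin f).subset ?_).countable
    rintro a ⟨ha, hab⟩
    exact ⟨ha, hab ▸ hf⟩
  · intro a ha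
    exact mem_iUnion₂.2 ⟨O a, ⟨a, ha, rfl⟩, ha, rfl⟩

end Pool.Agent.Results.MP_3b51b4_gt.MartinAxiomSmallWeight
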