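import Pool.Agent.HM_h27.IFinal
import Pool.Agent.W_3b51b4_h32.Final

/-!
# A model of ZFC in which every perfectly normal compactum `X` with `p(C_p(X)) = ω` is metrizable

`E x y` is read `x ∈ y`. The statement `PNM.Q1 E` is the statement of the question with all quantifiers ranging
over the model `(M, E)`; the notions used in it are defined in `Pool/Agent/HM_h27/StmtQ.lean`.
-/

namespace Pool.Agent.Results.MP_3b51b4_gt.ModelPositive

/-- There is a countable well-founded model `(M, E)` of ZFC in which a real line exists and every perfectly normal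
compactum `X` with `p(C_p(X)) = ω` is metrizable. -/
theorem result : ∃ (M : Type 1) (E : M → M → Prop), Countable M ∧ WellFounded E ∧ HESR.IsZFC E ∧
    (∃ R ρ, PNM.IsReals E R ρ) ∧ PNM.Q1 E := by
  obtain ⟨M, E, hc, hwf, hZ, hMA, hOCA⟩ := MOF.exists_model
  letI : HM.ZFM M := ⟨E, hZ, hwf⟩
  exact ⟨M, E, hc, hwf, hZ, HM.exists_reals M, HM.q1_of M hMA hOCA⟩

end Pool.Agent.Results.MP_3b51b4_gt.ModelPositive
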